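import Mathlib

/-!
# Planks and convex bodies of perimeter at most 2: the covering statement fails for every number n ≥ 2 of planks

One pentagon of perimeter at most 1.994 works for all `n`.
-/

set_option autoImplicit false

open MeasureTheory
open scoped Pointwise

namespace Pool.Agent.Results.MP_d7a99c_co.Full

/-- The plane. -/
abbrev E2 := EuclideanSpace ℝ (Fin 2)

/-- The plank `{x : a ≤ ⟨u, x⟩ ≤ a + w}`; its width is `w` when `u` is a unit vector. -/
def plank (u : E2) (a w : ℝ) : Set E2 := {x | a ≤ inner ℝ u x ∧ inner ℝ u x ≤ a + w}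

/-- A point of the plane by its coordinates, in units of `1/500`. -/
noncomputable def pt (a b : ℝ) : E2 := !₂[a / 500, b / 500]

@[simp] theorem pt_zero (a b : ℝ) : pt a b 0 = a / 500 := by simp [pt]
@[simp] theorem pt_one (a b : ℝ) : pt a b 1 = b / 500 := by simp [pt]

/-- The vertices of the pentagon, in cyclic order. -/
noncomputable def vert : Fin 5 → E2 :=
  ![pt 0 0, pt 251 30, pt 281 251, pt 251 281, pt 30 251]

/-- The pentagon given by its five edge inequalities. -/
def pent : Set E2 :=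
  {x | 30 * x 0 - 251 * x 1 ≤ 0 ∧ 221 * (500 * x 0 - 251) - 30 * (500 * x 1 - 30) ≤ 0 ∧
    500 * x 0 + 500 * x 1 ≤ 532 ∧ 221 * (500 * x 1 - 251) - 30 * (500 * x 0 - 30) ≤ 0 ∧
    30 * x 1 - 251 * x 0 ≤ 0}

theorem cont0 : Continuous (fun x : E2 => x 0) := by fun_prop
theorem cont1 : Continuous (fun x : E2 => x 1) := by fun_prop

theorem pent_closed : IsClosed pent := by
  have h0 := cont0
  have h1 := cont1
  have g0 : IsClosed {x : E2 | 30 * x 0 - 251 * x 1 ≤ (0 : ℝ)} :=
    isClosed_le (by fun_prop) (by fun_prop)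
  have g1 : IsClosed {x : E2 | 221 * (500 * x 0 - 251) - 30 * (500 * x 1 - 30) ≤ (0 : ℝ)} :=
    isClosed_le (by fun_prop) (by fun_prop)
  have g2 : IsClosed {x : E2 | 500 * x 0 + 500 * x 1 ≤ (532 : ℝ)} :=
    isClosed_le (by fun_prop) (by fun_prop)
  have g3 : IsClosed {x : E2 | 221 * (500 * x 1 - 251) - 30 * (500 * x 0 - 30) ≤ (0 : ℝ)} :=
    isClosed_le (by fun_prop) (by fun_prop)
  have g4 : IsClosed {x : E2 | 30 * x 1 - 251 * x 0 ≤ (0 : ℝ)} :=
    isClosed_le (by fun_prop) (by fun_prop)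
  exact g0.inter (g1.inter (g2.inter (g3.inter g4)))

theorem pent_convex : Convex ℝ pent := by
  intro x hx y hy a b ha hb hab
  obtain ⟨h1, h2, h3, h4, h5⟩ := hx
  obtain ⟨g1, g2, g3, g4, g5⟩ := hy
  have e0 : (a • x + b • y : E2) 0 = a * x 0 + b * y 0 := by simp
  have e1 : (a • x + b • y : E2) 1 = a * x 1 + b * y 1 := by simp
  have hb' : b = 1 - a := by linarith
  subst hb'
  refine ⟨?_, ?_, ?_, ?_, ?_⟩
  · rw [e0, e1]; nlinarith
  · rw [e0, e1]; nlinarith
  · rw [e0, e1]; nlinarith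
  · rw [e0, e1]; nlinarith
  · rw [e0, e1]; nlinarith

theorem pent_bounded {x : E2} (hx : x ∈ pent) : 0 ≤ x 0 ∧ x 0 ≤ 1 ∧ 0 ≤ x 1 ∧ x 1 ≤ 1 := by
  obtain ⟨h1, h2, h3, h4, h5⟩ := hx
  refine ⟨by linarith, by linarith, by linarith, by linarith⟩

theorem pent_compact : IsCompact pent := by
  apply Metric.isCompact_of_isClosed_isBounded pent_closed
  rw [isBounded_iff_forall_norm_le]
  refine ⟨2, fun x hx => ?_⟩
  obtain ⟨h1, h2, h3, h4⟩ := pent_bounded hx
  rw [EuclideanSpace.norm_eq]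
  rw [Fin.sum_univ_two]
  rw [Real.sqrt_le_left (by norm_num)]
  simp only [Real.norm_eq_abs, sq_abs]
  nlinarith

/-- The open pentagon. -/
def pentOpen : Set E2 :=
  {x | 30 * x 0 - 251 * x 1 < 0 ∧ 221 * (500 * x 0 - 251) - 30 * (500 * x 1 - 30) < 0 ∧
    500 * x 0 + 500 * x 1 < 532 ∧ 221 * (500 * x 1 - 251) - 30 * (500 * x 0 - 30) < 0 ∧
    30 * x 1 - 251 * x 0 < 0}

theorem pentOpen_isOpen : IsOpen pentOpen := by
  have h0 := cont0
  have h1 := cont1
  have g0 : IsOpen {x : E2 | 30 * x 0 - 251 * x 1 < (0 : ℝ)} :=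
    isOpen_lt (by fun_prop) (by fun_prop)
  have g1 : IsOpen {x : E2 | 221 * (500 * x 0 - 251) - 30 * (500 * x 1 - 30) < (0 : ℝ)} :=
    isOpen_lt (by fun_prop) (by fun_prop)
  have g2 : IsOpen {x : E2 | 500 * x 0 + 500 * x 1 < (532 : ℝ)} :=
    isOpen_lt (by fun_prop) (by fun_prop)
  have g3 : IsOpen {x : E2 | 221 * (500 * x 1 - 251) - 30 * (500 * x 0 - 30) < (0 : ℝ)} :=
    isOpen_lt (by fun_prop) (by fun_prop)
  have g4 : IsOpen {x : E2 | 30 * x 1 - 251 * x 0 < (0 : ℝ)} :=
    isOpen_lt (by fun_prop) (by fun_prop)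
  exact g0.inter (g1.inter (g2.inter (g3.inter g4)))

theorem pentOpen_subset : pentOpen ⊆ pent := fun _ hx =>
  ⟨hx.1.le, hx.2.1.le, hx.2.2.1.le, hx.2.2.2.1.le, hx.2.2.2.2.le⟩

theorem pentOpen_subset_interior : pentOpen ⊆ interior pent :=
  interior_maximal pentOpen_subset pentOpen_isOpen

theorem pent_interior : (interior pent).Nonempty := by
  refine ⟨pt 100 100, pentOpen_subset_interior ?_⟩
  refine ⟨?_, ?_, ?_, ?_, ?_⟩ <;> simp <;> norm_num

/-- an interior point of `pent` satisfies `α x 0 + β x 1 < c` if `pent` lies in the closed half plane -/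
theorem interior_lt {α β c : ℝ} (hαβ : 0 < α ^ 2 + β ^ 2)
    (h : ∀ x ∈ pent, α * x 0 + β * x 1 ≤ c) {x : E2} (hx : x ∈ interior pent) :
    α * x 0 + β * x 1 < c := by
  set d : E2 := !₂[α, β] with hd
  have hc : Continuous fun t : ℝ => x + t • d := by fun_prop
  have h0 : (fun t : ℝ => x + t • d) 0 ∈ interior pent := by simpa using hx
  have h1 : ∀ᶠ t in nhds (0 : ℝ), x + t • d ∈ interior pent :=
    hc.continuousAt.eventually (isOpen_interior.mem_nhds h0)
  obtain ⟨ε, hε, hball⟩ := Metric.eventually_nhds_iff.1 h1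
  have h2 : x + (ε / 2) • d ∈ pent := by
    refine interior_subset (hball ?_)
    rw [Real.dist_eq, sub_zero, abs_of_pos (half_pos hε)]
    exact half_lt_self hε
  have h3 := h _ h2
  have e0 : (x + (ε / 2) • d : E2) 0 = x 0 + ε / 2 * α := by simp [hd]
  have e1 : (x + (ε / 2) • d : E2) 1 = x 1 + ε / 2 * β := by simp [hd]
  rw [e0, e1] at h3
  nlinarith [mul_pos (half_pos hε) hαβ]

theorem interior_eq : interior pent = pentOpen := by
  refine Set.Subset.antisymm (fun x hx => ?_) pentOpen_subset_interior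
  have k1 := interior_lt (α := 30) (β := -251) (c := 0) (by norm_num)
    (fun y hy => by linarith [hy.1]) hx
  have k2 := interior_lt (α := 110500) (β := -15000) (c := 54571) (by norm_num)
    (fun y hy => by linarith [hy.2.1]) hx
  have k3 := interior_lt (α := 500) (β := 500) (c := 532) (by norm_num)
    (fun y hy => by linarith [hy.2.2.1]) hx
  have k4 := interior_lt (α := -15000) (β := 110500) (c := 54571) (by norm_num)
    (fun y hy => by linarith [hy.2.2.2.1]) hx
  have k5 := interior_lt (α := -251) (β := 30) (c := 0) (by norm_num)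
    (fun y hy => by linarith [hy.2.2.2.2]) hx
  exact ⟨by linarith, by linarith, by linarith, by linarith, by linarith⟩

/-- A point between two others is in the segment. -/
theorem mem_seg {x : E2} {a b c d t : ℝ} (ht0 : 0 ≤ t) (ht1 : t ≤ 1)
    (h0 : x 0 = (1 - t) * (a / 500) + t * (c / 500))
    (h1 : x 1 = (1 - t) * (b / 500) + t * (d / 500)) : x ∈ segment ℝ (pt a b) (pt c d) := by
  refine ⟨1 - t, t, by linarith, ht0, by ring, ?_⟩
  ext i
  fin_cases i
  · simp [h0]
  · simp [h1]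

theorem frontier_subset : frontier pent ⊆
    segment ℝ (pt 0 0) (pt 251 30) ∪ (segment ℝ (pt 251 30) (pt 281 251) ∪
      (segment ℝ (pt 281 251) (pt 251 281) ∪ (segment ℝ (pt 251 281) (pt 30 251) ∪
        segment ℝ (pt 30 251) (pt 0 0)))) := by
  intro x hx
  have hxp : x ∈ pent := pent_closed.frontier_subset hx
  have hxn : x ∉ pentOpen := fun h => hx.2 (pentOpen_subset_interior h)
  obtain ⟨h1, h2, h3, h4, h5⟩ := hxp
  by_cases c1 : 30 * x 0 - 251 * x 1 < 0
  · by_cases c2 : 221 * (500 * x 0 - 251) - 30 * (500 * x 1 - 30) < 0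
    · by_cases c3 : 500 * x 0 + 500 * x 1 < 532
      · by_cases c4 : 221 * (500 * x 1 - 251) - 30 * (500 * x 0 - 30) < 0
        · by_cases c5 : 30 * x 1 - 251 * x 0 < 0
          · exact absurd ⟨c1, c2, c3, c4, c5⟩ hxn
          · refine Or.inr (Or.inr (Or.inr (Or.inr ?_)))
            rw [segment_symm]
            have e : x 0 = 30 * x 1 / 251 := by linarith
            refine mem_seg (t := 500 * x 1 / 251) (by linarith) (by linarith) ?_ ?_
            · rw [e]; ring
            · ring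
        · refine Or.inr (Or.inr (Or.inr (Or.inl ?_)))
          rw [segment_symm]
          refine mem_seg (t := (500 * x 0 - 30) / 221) (by linarith) (by linarith) ?_ ?_
          · ring
          · linarith
      · refine Or.inr (Or.inr (Or.inl ?_))
        refine mem_seg (t := (281 - 500 * x 0) / 30) (by linarith) (by linarith) ?_ ?_
        · ring
        · linarith
    · refine Or.inr (Or.inl ?_)
      refine mem_seg (t := (500 * x 1 - 30) / 221) (by linarith) (by linarith) ?_ ?_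
      · linarith
      · ring
  · refine Or.inl ?_
    refine mem_seg (t := 500 * x 0 / 251) (by linarith) (by linarith) ?_ ?_
    · ring
    · linarith

theorem union_eq : (⋃ i : Fin 5, segment ℝ (vert i) (vert (i + 1))) =
    segment ℝ (pt 0 0) (pt 251 30) ∪ (segment ℝ (pt 251 30) (pt 281 251) ∪
      (segment ℝ (pt 281 251) (pt 251 281) ∪ (segment ℝ (pt 251 281) (pt 30 251) ∪
        segment ℝ (pt 30 251) (pt 0 0)))) := by
  ext x
  simp only [Set.mem_iUnion, Set.mem_union]
  constructor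
  · rintro ⟨i, hi⟩
    fin_cases i
    · exact Or.inl hi
    · exact Or.inr (Or.inl hi)
    · exact Or.inr (Or.inr (Or.inl hi))
    · exact Or.inr (Or.inr (Or.inr (Or.inl hi)))
    · exact Or.inr (Or.inr (Or.inr (Or.inr hi)))
  · rintro (h | h | h | h | h)
    · exact ⟨0, h⟩
    · exact ⟨1, h⟩
    · exact ⟨2, h⟩
    · exact ⟨3, h⟩
    · exact ⟨4, h⟩

theorem mem0 : pt 0 0 ∈ pent := by
  refine ⟨?_, ?_, ?_, ?_, ?_⟩ <;> simp <;> norm_num
theorem mem1 : pt 251 30 ∈ pent := by
  refine ⟨?_, ?_, ?_, ?_, ?_⟩ <;> simp <;> norm_num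
theorem mem2 : pt 281 251 ∈ pent := by
  refine ⟨?_, ?_, ?_, ?_, ?_⟩ <;> simp <;> norm_num
theorem mem3 : pt 251 281 ∈ pent := by
  refine ⟨?_, ?_, ?_, ?_, ?_⟩ <;> simp <;> norm_num
theorem mem4 : pt 30 251 ∈ pent := by
  refine ⟨?_, ?_, ?_, ?_, ?_⟩ <;> simp <;> norm_num

/-- coordinates of a point in a segment -/
theorem seg_coord {x : E2} {a b c d : ℝ} (hx : x ∈ segment ℝ (pt a b) (pt c d)) :
    ∃ t : ℝ, x 0 = (1 - t) * (a / 500) + t * (c / 500) ∧
      x 1 = (1 - t) * (b / 500) + t * (d / 500) := by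
  obtain ⟨s, t, hs, ht, hst, rfl⟩ := hx
  refine ⟨t, ?_, ?_⟩
  · have : s = 1 - t := by linarith
    subst this
    simp
  · have : s = 1 - t := by linarith
    subst this
    simp

theorem frontier_eq : frontier pent = ⋃ i : Fin 5, segment ℝ (vert i) (vert (i + 1)) := by
  rw [union_eq]
  refine Set.Subset.antisymm frontier_subset ?_
  have key : ∀ {a b c d : ℝ}, pt a b ∈ pent → pt c d ∈ pent →
      (∀ x ∈ segment ℝ (pt a b) (pt c d), x ∉ pentOpen) →
      segment ℝ (pt a b) (pt c d) ⊆ frontier pent := by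
    intro a b c d h1 h2 h3 x hx
    rw [frontier, interior_eq]
    exact ⟨subset_closure (pent_convex.segment_subset h1 h2 hx), h3 x hx⟩
  refine Set.union_subset (key mem0 mem1 ?_) (Set.union_subset (key mem1 mem2 ?_)
    (Set.union_subset (key mem2 mem3 ?_) (Set.union_subset (key mem3 mem4 ?_) (key mem4 mem0 ?_))))
  · intro x hx hxo
    obtain ⟨t, h0, h1⟩ := seg_coord hx
    have := hxo.1
    rw [h0, h1] at this
    linarith
  · intro x hx hxo
    obtain ⟨t, h0, h1⟩ := seg_coord hx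
    have := hxo.2.1
    rw [h0, h1] at this
    linarith
  · intro x hx hxo
    obtain ⟨t, h0, h1⟩ := seg_coord hx
    have := hxo.2.2.1
    rw [h0, h1] at this
    linarith
  · intro x hx hxo
    obtain ⟨t, h0, h1⟩ := seg_coord hx
    have := hxo.2.2.2.1
    rw [h0, h1] at this
    linarith
  · intro x hx hxo
    obtain ⟨t, h0, h1⟩ := seg_coord hx
    have := hxo.2.2.2.2
    rw [h0, h1] at this
    linarith

theorem comb_mem {S : Set E2} (hS : Convex ℝ S) {a b c d : ℝ} (h0 : pt 0 0 ∈ S)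
    (h1 : pt a b ∈ S) (h2 : pt c d ∈ S) {x : E2} {s t : ℝ} (hs : 0 ≤ s) (ht : 0 ≤ t)
    (hst : s + t ≤ 1) (e0 : x 0 = s * (a / 500) + t * (c / 500))
    (e1 : x 1 = s * (b / 500) + t * (d / 500)) : x ∈ S := by
  have h := hS.sum_mem (t := Finset.univ) (w := ![s, t, 1 - s - t])
    (z := ![pt a b, pt c d, pt 0 0])
    (by intro i _; fin_cases i <;> simp <;> linarith)
    (by simp [Fin.sum_univ_three]) (by intro i _; fin_cases i <;> simp [h0, h1, h2])
  convert h using 1
  ext i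
  fin_cases i
  · simp [Fin.sum_univ_three, e0]
  · simp [Fin.sum_univ_three, e1]

theorem hull_eq : convexHull ℝ (Set.range vert) = pent := by
  refine Set.Subset.antisymm (convexHull_min ?_ pent_convex) ?_
  · rintro _ ⟨i, rfl⟩
    fin_cases i
    · exact mem0
    · exact mem1
    · exact mem2
    · exact mem3
    · exact mem4
  · intro x hx
    have m0 : pt 0 0 ∈ convexHull ℝ (Set.range vert) := subset_convexHull ℝ _ ⟨0, rfl⟩
    have m1 : pt 251 30 ∈ convexHull ℝ (Set.range vert) := subset_convexHull ℝ _ ⟨1, rfl⟩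
    have m2 : pt 281 251 ∈ convexHull ℝ (Set.range vert) := subset_convexHull ℝ _ ⟨2, rfl⟩
    have m3 : pt 251 281 ∈ convexHull ℝ (Set.range vert) := subset_convexHull ℝ _ ⟨3, rfl⟩
    have m4 : pt 30 251 ∈ convexHull ℝ (Set.range vert) := subset_convexHull ℝ _ ⟨4, rfl⟩
    obtain ⟨h1, h2, h3, h4, h5⟩ := hx
    have hc := convex_convexHull ℝ (Set.range vert)
    by_cases c1 : 251 * x 0 - 281 * x 1 < 0
    · by_cases c2 : 281 * x 0 - 251 * x 1 < 0
      · -- triangle 0, (251,281), (30,251)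
        refine comb_mem hc m0 m3 m4 (s := 500 * (251 * x 0 - 30 * x 1) / 54571)
          (t := 500 * (251 * x 1 - 281 * x 0) / 54571) (by linarith) (by linarith) (by linarith)
          (by ring) (by ring)
      · -- triangle 0, (281,251), (251,281)
        refine comb_mem hc m0 m2 m3 (s := 500 * (281 * x 0 - 251 * x 1) / 15960)
          (t := 500 * (281 * x 1 - 251 * x 0) / 15960) (by linarith) (by linarith) (by linarith)
          (by ring) (by ring)
    · -- triangle 0, (251,30), (281,251)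
      refine comb_mem hc m0 m1 m2 (s := 500 * (251 * x 0 - 281 * x 1) / 54571)
        (t := 500 * (251 * x 1 - 30 * x 0) / 54571) (by linarith) (by linarith) (by linarith)
        (by ring) (by ring)

theorem len_le {a b c d L : ℝ} (hL : 0 ≤ L) (h : (a - c) ^ 2 + (b - d) ^ 2 ≤ (500 * L) ^ 2) :
    dist (pt a b) (pt c d) ≤ L := by
  rw [EuclideanSpace.dist_eq, Fin.sum_univ_two]
  rw [Real.sqrt_le_left hL]
  simp only [pt_zero, pt_one, Real.dist_eq, sq_abs]
  nlinarith

theorem sum_edges : ∑ i : Fin 5, dist (vert i) (vert (i + 1)) ≤ 997 / 500 := by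
  have e1 := len_le (a := 0) (b := 0) (c := 251) (d := 30) (L := 253 / 500)
    (by norm_num) (by norm_num)
  have e2 := len_le (a := 251) (b := 30) (c := 281) (d := 251) (L := 224 / 500)
    (by norm_num) (by norm_num)
  have e3 := len_le (a := 281) (b := 251) (c := 251) (d := 281) (L := 43 / 500)
    (by norm_num) (by norm_num)
  have e4 := len_le (a := 251) (b := 281) (c := 30) (d := 251) (L := 224 / 500)
    (by norm_num) (by norm_num)
  have e5 := len_le (a := 30) (b := 251) (c := 0) (d := 0) (L := 253 / 500)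
    (by norm_num) (by norm_num)
  rw [Fin.sum_univ_five]
  change dist (pt 0 0) (pt 251 30) + dist (pt 251 30) (pt 281 251) +
    dist (pt 281 251) (pt 251 281) + dist (pt 251 281) (pt 30 251) +
    dist (pt 30 251) (pt 0 0) ≤ 997 / 500
  linarith

theorem perimeter_le : Measure.hausdorffMeasure 1 (frontier pent) ≤ ENNReal.ofReal (997 / 500) := by
  rw [frontier_eq]
  calc Measure.hausdorffMeasure 1 (⋃ i : Fin 5, segment ℝ (vert i) (vert (i + 1)))
      ≤ ∑ i : Fin 5, Measure.hausdorffMeasure 1 (segment ℝ (vert i) (vert (i + 1))) :=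
        measure_iUnion_fintype_le _ _
    _ = ∑ i : Fin 5, ENNReal.ofReal (dist (vert i) (vert (i + 1))) := by
        refine Finset.sum_congr rfl fun i _ => ?_
        rw [hausdorffMeasure_segment, edist_dist]
    _ = ENNReal.ofReal (∑ i : Fin 5, dist (vert i) (vert (i + 1))) := by
        rw [ENNReal.ofReal_sum_of_nonneg fun i _ => dist_nonneg]
    _ ≤ ENNReal.ofReal (997 / 500) := ENNReal.ofReal_le_ofReal sum_edges

/-- Five points near the vertices are not covered by two perpendicular planks of width `1/2`. -/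
theorem five (r : Fin 5 → E2) (hr : ∀ k, |r k 0 - vert k 0| ≤ 3 / 4000 ∧ |r k 1 - vert k 1| ≤ 3 / 4000)
    (c d : ℝ) (h : ∀ k, (d ≤ r k 1 ∧ r k 1 ≤ d + 1 / 2) ∨ (c ≤ r k 0 ∧ r k 0 ≤ c + 1 / 2)) :
    False := by
  have v0 : vert 0 0 = 0 / 500 ∧ vert 0 1 = 0 / 500 := ⟨pt_zero _ _, pt_one _ _⟩
  have v1 : vert 1 0 = 251 / 500 ∧ vert 1 1 = 30 / 500 := ⟨pt_zero _ _, pt_one _ _⟩
  have v2 : vert 2 0 = 281 / 500 ∧ vert 2 1 = 251 / 500 := ⟨pt_zero _ _, pt_one _ _⟩
  have v3 : vert 3 0 = 251 / 500 ∧ vert 3 1 = 281 / 500 := ⟨pt_zero _ _, pt_one _ _⟩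
  have v4 : vert 4 0 = 30 / 500 ∧ vert 4 1 = 251 / 500 := ⟨pt_zero _ _, pt_one _ _⟩
  obtain ⟨p0, q0⟩ := hr 0
  obtain ⟨p1, q1⟩ := hr 1
  obtain ⟨p2, q2⟩ := hr 2
  obtain ⟨p3, q3⟩ := hr 3
  obtain ⟨p4, q4⟩ := hr 4
  rw [v0.1] at p0
  rw [v0.2] at q0
  rw [v1.1] at p1
  rw [v1.2] at q1
  rw [v2.1] at p2
  rw [v2.2] at q2
  rw [v3.1] at p3
  rw [v3.2] at q3
  rw [v4.1] at p4
  rw [v4.2] at q4
  rw [abs_le] at p0 q0 p1 q1 p2 q2 p3 q3 p4 q4
  have k0 := h 0
  have k1 := h 1
  have k2 := h 2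
  have k3 := h 3
  have k4 := h 4
  rcases k0 with ⟨a0, b0⟩ | ⟨a0, b0⟩
  · rcases k4 with ⟨a4, b4⟩ | ⟨a4, b4⟩
    · linarith
    · rcases k2 with ⟨a2, b2⟩ | ⟨a2, b2⟩
      · linarith
      · linarith
  · rcases k1 with ⟨a1, b1⟩ | ⟨a1, b1⟩
    · rcases k3 with ⟨a3, b3⟩ | ⟨a3, b3⟩
      · linarith
      · linarith
    · linarith

/-- The horizontal and the vertical unit vectors. -/
noncomputable def e (i : Fin 2) : E2 := EuclideanSpace.single i (1 : ℝ)

theorem inner_e (x : E2) (i : Fin 2) : inner ℝ (e i) x = x i := by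
  simp [e, EuclideanSpace.inner_single_left]

theorem norm_e (i : Fin 2) : ‖e i‖ = 1 := by simp [e]

/-- the centre of the clusters -/
theorem cen_mem : pt 140 140 ∈ pent := by
  refine ⟨?_, ?_, ?_, ?_, ?_⟩ <;> simp <;> norm_num

/-- In a cluster of `m + 1` points one point is missed by all `m` thin vertical planks. -/
theorem cluster (m : ℕ) (k : Fin 5) (c : Fin m → ℝ) :
    ∃ x ∈ pent, |x 0 - vert k 0| ≤ 3 / 4000 ∧ |x 1 - vert k 1| ≤ 3 / 4000 ∧
      ∀ i, ¬ (c i ≤ x 0 ∧ x 0 ≤ c i + 1 / (2500 * (m + 1))) := by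
  by_contra hcon
  push Not at hcon
  set σ : ℝ := 1 / (400 * (m + 1)) with hσ
  have hm : (0 : ℝ) < m + 1 := by positivity
  have hσ0 : 0 < σ := by positivity
  have hmσ : (m + 1) * σ = 1 / 400 := by rw [hσ]; field_simp
  have hvk : vert k ∈ pent := by
    rw [← hull_eq]
    exact subset_convexHull ℝ _ ⟨k, rfl⟩
  have hv0 : ∃ a b : ℝ, vert k = pt a b ∧ 110 ≤ |140 - a| ∧ |140 - a| ≤ 150 ∧ |140 - b| ≤ 150 := by
    fin_cases k
    · exact ⟨0, 0, rfl, by norm_num, by norm_num, by norm_num⟩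
    · exact ⟨251, 30, rfl, by norm_num [abs_of_neg], by norm_num [abs_of_neg], by norm_num⟩
    · exact ⟨281, 251, rfl, by norm_num [abs_of_neg], by norm_num [abs_of_neg], by norm_num [abs_of_neg]⟩
    · exact ⟨251, 281, rfl, by norm_num [abs_of_neg], by norm_num [abs_of_neg], by norm_num [abs_of_neg]⟩
    · exact ⟨30, 251, rfl, by norm_num, by norm_num, by norm_num [abs_of_neg]⟩
  obtain ⟨a, b, hab, ha1, ha2, hb⟩ := hv0
  set q : Fin (m + 1) → E2 := fun j => (1 - j * σ) • vert k + (j * σ) • pt 140 140 with hq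
  have hj : ∀ j : Fin (m + 1), (j : ℝ) * σ ≤ 1 / 400 := by
    intro j
    have h1 : (j : ℝ) ≤ m := by exact_mod_cast Nat.lt_succ_iff.1 j.2
    nlinarith
  have hj0 : ∀ j : Fin (m + 1), 0 ≤ (j : ℝ) * σ := fun j => by positivity
  have hqm : ∀ j, q j ∈ pent := by
    intro j
    exact pent_convex hvk cen_mem (by linarith [hj j]) (hj0 j) (by ring)
  have hq0 : ∀ j, q j 0 = vert k 0 + (j * σ) * ((140 - a) / 500) := by
    intro j
    simp only [hq, hab]
    simp
    ring
  have hq1 : ∀ j, q j 1 = vert k 1 + (j * σ) * ((140 - b) / 500) := by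
    intro j
    simp only [hq, hab]
    simp
    ring
  have hbd : ∀ (j : Fin (m + 1)) (z : ℝ), |140 - z| ≤ 150 → |(j * σ) * ((140 - z) / 500)| ≤ 3 / 4000 := by
    intro j z hz
    rw [abs_mul, abs_of_nonneg (hj0 j), abs_div, abs_of_pos (by norm_num : (0 : ℝ) < 500)]
    have := hj j
    have h0 := hj0 j
    calc (j : ℝ) * σ * (|140 - z| / 500) ≤ 1 / 400 * (150 / 500) := by gcongr
      _ = 3 / 4000 := by norm_num
  have hex : ∀ j : Fin (m + 1), ∃ i : Fin m, c i ≤ q j 0 ∧ q j 0 ≤ c i + 1 / (2500 * (m + 1)) := by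
    intro j
    refine hcon (q j) (hqm j) ?_ ?_
    · rw [hq0, add_sub_cancel_left]; exact hbd j a ha2
    · rw [hq1, add_sub_cancel_left]; exact hbd j b hb
  choose f hf using hex
  have hinj : Function.Injective f := by
    intro j l hjl
    by_contra hne
    have h1 := hf j
    have h2 := hf l
    rw [hjl] at h1
    have h3 : |q j 0 - q l 0| ≤ 1 / (2500 * (m + 1)) := by
      rw [abs_le]; constructor <;> linarith
    have h4 : q j 0 - q l 0 = ((j : ℝ) - l) * (σ * ((140 - a) / 500)) := by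
      rw [hq0, hq0]; ring
    have h5 : (1 : ℝ) ≤ |(j : ℝ) - l| := by
      have : (1 : ℤ) ≤ |(j : ℤ) - l| := by
        apply Int.one_le_abs
        intro h0
        apply hne
        apply Fin.ext
        have : (j : ℤ) = l := by linarith
        exact_mod_cast this
      exact_mod_cast this
    rw [h4, abs_mul, abs_mul, abs_of_pos hσ0, abs_div, abs_of_pos (by norm_num : (0 : ℝ) < 500)] at h3
    have h6 : σ * (110 / 500) ≤ |(j : ℝ) - l| * (σ * (|140 - a| / 500)) := by
      calc σ * (110 / 500) ≤ σ * (|140 - a| / 500) := by gcongr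
        _ = 1 * (σ * (|140 - a| / 500)) := by ring
        _ ≤ |(j : ℝ) - l| * (σ * (|140 - a| / 500)) := by gcongr
    have h7 : σ * (110 / 500) = 11 / 20000 * (1 / (m + 1)) := by rw [hσ]; field_simp; norm_num
    have h8 : 1 / (2500 * ((m : ℝ) + 1)) = 1 / 2500 * (1 / (m + 1)) := by field_simp
    have h9 : (0 : ℝ) < 1 / (m + 1) := by positivity
    rw [h7] at h6
    rw [h8] at h3
    nlinarith
  have := Fintype.card_le_of_injective f hinj
  simp at this

/-- One pentagon `B` (with vertices `vert`, perimeter at most `1.994`) such that for EVERY `n ≥ 2` there are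
`n` planks of total width `1` no translates of which cover `B`. -/
theorem result :
    ∃ p : Fin 5 → E2, ∃ B : Set E2, B = convexHull ℝ (Set.range p) ∧
      IsCompact B ∧ Convex ℝ B ∧ (interior B).Nonempty ∧
      frontier B = ⋃ i, segment ℝ (p i) (p (i + 1)) ∧
      ∑ i, dist (p i) (p (i + 1)) ≤ 1.994 ∧
      Measure.hausdorffMeasure 1 (frontier B) ≤ ENNReal.ofReal 1.994 ∧
      ∀ n : ℕ, 2 ≤ n → ∃ (u : Fin n → E2) (a w : Fin n → ℝ),
        (∀ i, ‖u i‖ = 1) ∧ (∀ i, 0 < w i) ∧ ∑ i, w i = 1 ∧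
        ∀ v : Fin n → E2, ¬ B ⊆ ⋃ i, (v i +ᵥ plank (u i) (a i) (w i)) := by
  have h1994 : (1.994 : ℝ) = 997 / 500 := by norm_num
  refine ⟨vert, pent, hull_eq.symm, pent_compact, pent_convex, pent_interior, frontier_eq,
    by rw [h1994]; exact sum_edges, by rw [h1994]; exact perimeter_le, ?_⟩
  intro n hn
  obtain ⟨m, rfl⟩ : ∃ m, n = m + 2 := ⟨n - 2, by omega⟩
  set η : ℝ := 1 / (2500 * (m + 1)) with hη
  have hm : (0 : ℝ) < m + 1 := by positivity
  have hη0 : 0 < η := by positivity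
  have hmη : m * η ≤ 1 / 2500 := by
    have h1 : (m + 1) * η = 1 / 2500 := by rw [hη]; field_simp
    nlinarith
  refine ⟨Fin.cons (e 1) (fun _ => e 0), fun _ => 0,
    Fin.cons (1 / 2) (Fin.cons (1 / 2 - m * η) (fun _ => η)), ?_, ?_, ?_, ?_⟩
  · intro i
    refine Fin.cases ?_ (fun j => ?_) i
    · simp [norm_e]
    · simp [norm_e]
  · intro i
    refine Fin.cases ?_ (fun j => ?_) i
    · simp
    · rw [Fin.cons_succ]
      refine Fin.cases ?_ (fun l => ?_) j
      · rw [Fin.cons_zero]; linarith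
      · rw [Fin.cons_succ]; exact hη0
  · rw [Fin.sum_univ_succ, Fin.cons_zero]
    simp only [Fin.cons_succ]
    rw [Fin.sum_univ_succ, Fin.cons_zero]
    simp only [Fin.cons_succ, Finset.sum_const, Finset.card_univ, Fintype.card_fin, nsmul_eq_mul]
    ring
  · intro v hcov
    have hmem : ∀ (w' : E2) (u' : E2) (t : ℝ) (x : E2), x ∈ w' +ᵥ plank u' 0 t →
        inner ℝ u' w' ≤ inner ℝ u' x ∧ inner ℝ u' x ≤ inner ℝ u' w' + t := by
      intro w' u' t x hx
      rw [Set.mem_vadd_set] at hx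
      obtain ⟨y, hy, rfl⟩ := hx
      have hy' : 0 ≤ inner ℝ u' y ∧ inner ℝ u' y ≤ 0 + t := hy
      rw [vadd_eq_add, inner_add_right]
      exact ⟨by linarith [hy'.1], by linarith [hy'.2]⟩
    have key : ∀ x ∈ pent, (v 0 1 ≤ x 1 ∧ x 1 ≤ v 0 1 + 1 / 2) ∨
        (v 1 0 ≤ x 0 ∧ x 0 ≤ v 1 0 + (1 / 2 - m * η)) ∨
        ∃ i : Fin m, v i.succ.succ 0 ≤ x 0 ∧ x 0 ≤ v i.succ.succ 0 + η := by
      intro x hx
      obtain ⟨i, hi⟩ := Set.mem_iUnion.1 (hcov hx)
      have h2 := hmem _ _ _ _ hi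
      revert h2
      refine Fin.cases ?_ (fun j => ?_) i
      · intro h2
        rw [Fin.cons_zero, Fin.cons_zero, inner_e, inner_e] at h2
        exact Or.inl h2
      · rw [Fin.cons_succ, Fin.cons_succ, inner_e, inner_e]
        refine Fin.cases ?_ (fun l => ?_) j
        · intro h2
          rw [Fin.cons_zero] at h2
          exact Or.inr (Or.inl h2)
        · intro h2
          rw [Fin.cons_succ] at h2
          exact Or.inr (Or.inr ⟨l, h2⟩)
    have hcl := fun k => cluster m k (fun i => v i.succ.succ 0)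
    choose r hr hr0 hr1 hr2 using hcl
    refine five r (fun k => ⟨hr0 k, hr1 k⟩) (v 1 0) (v 0 1) (fun k => ?_)
    rcases key (r k) (hr k) with h | h | ⟨i, h⟩
    · exact Or.inl h
    · refine Or.inr ⟨h.1, ?_⟩
      have : 0 ≤ m * η := by positivity
      linarith [h.2]
    · exact absurd h (hr2 k i)

end Pool.Agent.Results.MP_d7a99c_co.Full
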